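import Mathlib
import Pool.Agent.Lib.MP_e1f7e2_al.Degenerate

set_option autoImplicit false

/-!
Automorphisms which conjugate the affine group into the tame group are limits of tame
automorphisms.
-/

open Pool.Agent.Lib.MP_e1f7e2_al

universe u

namespace Pool.Agent.Results.MP_e1f7e2_al.Degeneration

theorem result (K : Type u) [Field K] (n : ℕ) :
    (∀ ψ : MvPolynomial (Fin n) K ≃ₐ[K] MvPolynomial (Fin n) K,
      (∀ φ, IsAffine MvPolynomial.X φ → ψ⁻¹ * φ * ψ ∈
        TAut K (MvPolynomial.X : Fin n → MvPolynomial (Fin n) K)) →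
      LimitOfTame MvPolynomial.X ψ) ∧
    (∀ ψ : FreeAlgebra K (Fin n) ≃ₐ[K] FreeAlgebra K (Fin n),
      (∀ φ, IsAffine (FreeAlgebra.ι K) φ → ψ⁻¹ * φ * ψ ∈
        TAut K (FreeAlgebra.ι K : Fin n → FreeAlgebra K (Fin n))) →
      LimitOfTame (FreeAlgebra.ι K) ψ) :=
  ⟨fun ψ hψ => (freeOn_mvPolynomial K n).limitOfTame ψ hψ,
    fun ψ hψ => (freeOn_freeAlgebra K n).limitOfTame ψ hψ⟩

end Pool.Agent.Results.MP_e1f7e2_al.Degeneration
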