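import Pool.Agent.Lib.MP_e1f7e2_al.FA.H57.All

/-!
# MP_e1f7e2_al, Q2 for `n = 3` and every field

`TAut K x`, `Normalizes x ψ`, `IsAffine`, `IsElementary` are defined in
`Pool/Agent/Lib/MP_e1f7e2_al/Defs.lean`.  The variables are `ι K 0, ι K 1, ι K 2`.

For every field `K` the tame subgroup of the automorphism group of `K⟨x₀, x₁, x₂⟩` is a proper
subgroup (Anick's automorphism is wild), and it is its own normalizer.  More precisely, for a wild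
automorphism `ψ` there is `f ∈ K⟨x₁, x₂⟩` such that for every sufficiently large `N` the conjugate
`ψ⁻¹ φ ψ` of the elementary automorphism `φ : x₀ ↦ x₀ + f ^ N, x₁ ↦ x₁, x₂ ↦ x₂` is wild.
-/

open FreeAlgebra

namespace Pool.Agent.Results.MP_e1f7e2_al.FreeNormalizerDimThree

open Pool.Agent.Lib.MP_e1f7e2_al

theorem result (K : Type*) [Field K] :
    (∃ φ : FreeAlgebra K (Fin 3) ≃ₐ[K] FreeAlgebra K (Fin 3),
      φ (ι K 0) = ι K 0 + ι K 2 * (ι K 0 * ι K 2 - ι K 2 * ι K 1) ∧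
      φ (ι K 1) = ι K 1 + (ι K 0 * ι K 2 - ι K 2 * ι K 1) * ι K 2 ∧
      φ (ι K 2) = ι K 2 ∧ φ ∉ TAut K (ι K)) ∧
    (∀ ψ : FreeAlgebra K (Fin 3) ≃ₐ[K] FreeAlgebra K (Fin 3), ψ ∉ TAut K (ι K) →
      ∃ f ∈ Algebra.adjoin K ({ι K 1, ι K 2} : Set (FreeAlgebra K (Fin 3))), ∃ N₀ : ℕ, ∀ N ≥ N₀,
        ∃ φ : FreeAlgebra K (Fin 3) ≃ₐ[K] FreeAlgebra K (Fin 3),
          φ (ι K 0) = ι K 0 + f ^ N ∧ φ (ι K 1) = ι K 1 ∧ φ (ι K 2) = ι K 2 ∧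
          ψ⁻¹ * φ * ψ ∉ TAut K (ι K)) ∧
    (∀ ψ : FreeAlgebra K (Fin 3) ≃ₐ[K] FreeAlgebra K (Fin 3),
      Normalizes (ι K) ψ → ψ ∈ TAut K (ι K)) := by
  refine ⟨FA.H57.final_anick K (FA.H57.anick K), fun ψ hψ => ?_, fun ψ hψ => ?_⟩
  · obtain ⟨f, hf, N₀, h⟩ := FA.H57.final K (FA.H57.eight K) ψ hψ
    refine ⟨f, hf, N₀, fun N hN => ?_⟩
    obtain ⟨φ, h0, h1, h2, -, h4⟩ := h N hN
    exact ⟨φ, h0, h1, h2, h4⟩
  · by_contra hw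
    obtain ⟨f, -, N₀, h⟩ := FA.H57.final K (FA.H57.eight K) ψ hw
    obtain ⟨φ, -, -, -, h3, h4⟩ := h N₀ le_rfl
    exact h4 (hψ φ h3)

end Pool.Agent.Results.MP_e1f7e2_al.FreeNormalizerDimThree
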