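import Mathlib
import Pool.Agent.Lib.MP_e1f7e2_al.Families

set_option autoImplicit false

/-!
Automorphisms in torus stable groups of bounded degree which normalise the tame group are tame.
-/

open Pool.Agent.Lib.MP_e1f7e2_al

universe u

namespace Pool.Agent.Results.MP_e1f7e2_al.GradedGroups

/-- The statement about groups `G` of automorphisms which are stable under the conjugation by the
one-parameter group `x i ↦ λ ^ w i • x i` and whose elements fix the `x i` up to terms of higher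
weight. -/
def GroupStatement (K : Type u) [Field K] {A : Type u} [Ring A] [Algebra K A] {n : ℕ}
    (x : Fin n → A) : Prop :=
  ∀ (w : Fin n → ℕ) (G : Subgroup (A ≃ₐ[K] A)),
    (∀ g ∈ G, ∀ i, g (x i) - x i ∈ weightGE K x w (w i + 1)) →
    (∀ (l : K) (h : A ≃ₐ[K] A), l ≠ 0 → (∀ i, h (x i) = l ^ w i • x i) →
      ∀ g ∈ G, h * g * h⁻¹ ∈ G) →
    (∃ N, ∀ g ∈ G, ∀ i, g (x i) ∈ weightLE K x w N) →
    ∀ ψ ∈ G, Normalizes x ψ → ψ ∈ TAut K x

lemma groupStatement (K : Type u) [Field K] [Infinite K] {A : Type u} [Ring A] [Algebra K A]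
    {n : ℕ} (x : Fin n → A) (hx : FreeOn K x) : GroupStatement K x := by
  intro w G hG1 hG hb ψ hψG hψ
  obtain ⟨N, hN⟩ := hb
  have h1 : G ≤ hx.U w 1 := by
    intro g hg
    rw [hx.mem_U_iff w 1 le_rfl]
    intro i
    have := (hx.mem_weightGE_iff w (w i + 1) _).1 (hG1 g hg i)
    rwa [map_sub] at this
  have h2 : ∀ l : Kˣ, ∀ g ∈ G, hx.tor w l * g * (hx.tor w l)⁻¹ ∈ G :=
    fun l g hg => hG (l : K) (hx.tor w l) l.ne_zero (fun i => hx.tor_x w l i) g hg
  exact hx.mem_of_bounded w G h2 h1 N (fun g hg i => hx.natDegree_of_weightLE w N _ (hN g hg i))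
    ψ hψG hψ

theorem result (K : Type u) [Field K] [Infinite K] :
    (∀ n : ℕ, GroupStatement K (MvPolynomial.X : Fin n → MvPolynomial (Fin n) K)) ∧
    (∀ n : ℕ, GroupStatement K (FreeAlgebra.ι K : Fin n → FreeAlgebra K (Fin n))) ∧
    (∀ (F x y z : MvPolynomial (Fin 3) K) (ψ : MvPolynomial (Fin 3) K ≃ₐ[K] MvPolynomial (Fin 3) K),
      x = MvPolynomial.X 0 → y = MvPolynomial.X 1 → z = MvPolynomial.X 2 →
      F ∈ Algebra.adjoin K {z, x * z + y ^ 2} →
      ψ x = x - 2 * y * F - z * F ^ 2 → ψ y = y + z * F → ψ z = z →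
      Normalizes (MvPolynomial.X : Fin 3 → MvPolynomial (Fin 3) K) ψ →
      ψ ∈ TAut K (MvPolynomial.X : Fin 3 → MvPolynomial (Fin 3) K)) ∧
    (∀ (F x y z : FreeAlgebra K (Fin 3)) (ψ : FreeAlgebra K (Fin 3) ≃ₐ[K] FreeAlgebra K (Fin 3)),
      x = FreeAlgebra.ι K 0 → y = FreeAlgebra.ι K 1 → z = FreeAlgebra.ι K 2 →
      F ∈ Algebra.adjoin K {z, x * z - z * y} →
      ψ x = x + z * F → ψ y = y + F * z → ψ z = z →
      Normalizes (FreeAlgebra.ι K : Fin 3 → FreeAlgebra K (Fin 3)) ψ →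
      ψ ∈ TAut K (FreeAlgebra.ι K : Fin 3 → FreeAlgebra K (Fin 3))) := by
  refine ⟨fun n => groupStatement K _ (freeOn_mvPolynomial K n),
    fun n => groupStatement K _ (freeOn_freeAlgebra K n), ?_, ?_⟩
  · rintro F x y z ψ rfl rfl rfl hF h0 h1 h2 hψ
    exact nagata F hF ψ h0 h1 h2 hψ
  · rintro F x y z ψ rfl rfl rfl hF h0 h1 h2 hψ
    exact anick F hF ψ h0 h1 h2 hψ

end Pool.Agent.Results.MP_e1f7e2_al.GradedGroups
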