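import Pool.Agent.Lib.MP_e1f7e2_al.SU.H9.All

/-!
# MP_e1f7e2_al, Q1 for `n = 3` and fields of characteristic `0`

`TAut K X`, `Normalizes X ψ`, `IsAffine`, `IsElementary` are defined in
`Pool/Agent/Lib/MP_e1f7e2_al/Defs.lean`.  The variables are `X 0, X 1, X 2`.

For a wild automorphism `ψ` of `K[x₀, x₁, x₂]` there is `f ∈ K[x₁, x₂]` such that for every
sufficiently large `N` the conjugate `ψ⁻¹ φ ψ` of the elementary automorphism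
`φ : x₀ ↦ x₀ + f ^ N, x₁ ↦ x₁, x₂ ↦ x₂` is wild.  In particular only the elements of the tame group
can normalize the tame group.
-/

open MvPolynomial

namespace Pool.Agent.Results.MP_e1f7e2_al.NormalizerDimThree

open Pool.Agent.Lib.MP_e1f7e2_al

theorem result (K : Type*) [Field K] [CharZero K] :
    (∀ ψ : MvPolynomial (Fin 3) K ≃ₐ[K] MvPolynomial (Fin 3) K,
      ψ ∉ TAut K (X : Fin 3 → MvPolynomial (Fin 3) K) →
      ∃ f ∈ Algebra.adjoin K ({X 1, X 2} : Set (MvPolynomial (Fin 3) K)), ∃ N₀ : ℕ, ∀ N ≥ N₀,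
        ∃ φ : MvPolynomial (Fin 3) K ≃ₐ[K] MvPolynomial (Fin 3) K,
          φ (X 0) = X 0 + f ^ N ∧ φ (X 1) = X 1 ∧ φ (X 2) = X 2 ∧
          ψ⁻¹ * φ * ψ ∉ TAut K (X : Fin 3 → MvPolynomial (Fin 3) K)) ∧
    (∀ ψ : MvPolynomial (Fin 3) K ≃ₐ[K] MvPolynomial (Fin 3) K,
      Normalizes (X : Fin 3 → MvPolynomial (Fin 3) K) ψ →
      ψ ∈ TAut K (X : Fin 3 → MvPolynomial (Fin 3) K)) := by
  have main : ∀ ψ : MvPolynomial (Fin 3) K ≃ₐ[K] MvPolynomial (Fin 3) K,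
      ψ ∉ TAut K (X : Fin 3 → MvPolynomial (Fin 3) K) →
      ∃ f ∈ Algebra.adjoin K ({X 1, X 2} : Set (MvPolynomial (Fin 3) K)), ∃ N₀ : ℕ, ∀ N ≥ N₀,
        ∃ φ : MvPolynomial (Fin 3) K ≃ₐ[K] MvPolynomial (Fin 3) K,
          φ (X 0) = X 0 + f ^ N ∧ φ (X 1) = X 1 ∧ φ (X 2) = X 2 ∧
          φ ∈ TAut K (X : Fin 3 → MvPolynomial (Fin 3) K) ∧
          ψ⁻¹ * φ * ψ ∉ TAut K (X : Fin 3 → MvPolynomial (Fin 3) K) := by
    intro ψ hψ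
    obtain ⟨f, hf, N₀, h⟩ := SU.H9.finalTheorem K ψ hψ
    refine ⟨f, hf, N₀, fun N hN => ?_⟩
    obtain ⟨φ, hφ, hel⟩ := SU.H49.phi (f ^ N) (pow_mem hf N)
    exact ⟨φ, hφ.1, hφ.2.1, hφ.2.2, hel.mem, h N hN φ hφ⟩
  refine ⟨fun ψ hψ => ?_, fun ψ hψ => ?_⟩
  · obtain ⟨f, hf, N₀, h⟩ := main ψ hψ
    refine ⟨f, hf, N₀, fun N hN => ?_⟩
    obtain ⟨φ, h0, h1, h2, -, h4⟩ := h N hN
    exact ⟨φ, h0, h1, h2, h4⟩
  · by_contra hw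
    obtain ⟨f, -, N₀, h⟩ := main ψ hw
    obtain ⟨φ, -, -, -, h3, h4⟩ := h N₀ le_rfl
    exact h4 (hψ φ h3)

end Pool.Agent.Results.MP_e1f7e2_al.NormalizerDimThree
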